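import Pool.Agent.T9h87.Lin.Spec

/-! # (A) centre points -/

set_option autoImplicit false

namespace Pool.Agent.T9h85.Lin

open Finset Pool.Agent.T9h87.Lin
open scoped Classical

theorem stCenter : StCenter := by
  intro ι X g
  set s : Finset (Finset ι) := X.powerset.filter (fun S => 5 * (X \ S).card < X.card) with hs
  obtain ⟨z, hz⟩ : (⋂ S ∈ s, convexHull ℝ (g '' (S : Set ι))).Nonempty := by
    refine Convex.helly_theorem' (𝕜 := ℝ) (fun S _ => convex_convexHull ℝ _) fun I hI hcard => ?_
    have hfin : Module.finrank ℝ V4 = 4 := by simp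
    rw [hfin] at hcard
    rcases I.eq_empty_or_nonempty with rfl | hne
    · exact ⟨0, by simp⟩
    · have h1 : 5 * ∑ S ∈ I, (X \ S).card + I.card ≤ I.card * X.card := by
        rw [mul_sum, card_eq_sum_ones, ← sum_add_distrib, ← card_eq_sum_ones, ← smul_eq_mul,
          ← sum_const]
        refine sum_le_sum fun S hS => ?_
        have := (mem_filter.1 (hI hS)).2
        omega
      have h2 : I.card * X.card ≤ 5 * X.card := Nat.mul_le_mul_right _ hcard
      have h3 : (I.biUnion fun S => X \ S).card < X.card := by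
        have h4 := card_biUnion_le (s := I) (t := fun S => X \ S)
        have h5 := hne.card_pos
        omega
      obtain ⟨x, hx, hx'⟩ := exists_mem_notMem_of_card_lt_card h3
      refine ⟨g x, ?_⟩
      simp only [Set.mem_iInter]
      intro S hS
      refine subset_convexHull ℝ _ ⟨x, ?_, rfl⟩
      by_contra h6
      exact hx' (mem_biUnion.2 ⟨S, hS, mem_sdiff.2 ⟨hx, h6⟩⟩)
  refine ⟨z, fun l => ?_⟩
  by_contra hlt
  push Not at hlt
  simp only [Set.mem_iInter] at hz
  set S := X.filter (fun x => ¬ l (g x) ≤ l z) with hS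
  have h1 : X \ S = X.filter (fun x => l (g x) ≤ l z) := by
    ext x
    rw [hS, mem_sdiff, mem_filter, mem_filter]
    constructor
    · rintro ⟨h2, h3⟩
      exact ⟨h2, by by_contra h4; exact h3 ⟨h2, h4⟩⟩
    · rintro ⟨h2, h3⟩
      exact ⟨h2, fun h4 => h4.2 h3⟩
  have h2 : S ∈ s := mem_filter.2 ⟨mem_powerset.2 (filter_subset _ _), by rw [h1]; exact hlt⟩
  have h3 := hz S h2
  have h4 : convexHull ℝ (g '' (S : Set ι)) ⊆ {y | l z < l y} := by
    refine convexHull_min ?_ (convex_halfSpace_gt l.isLinear _)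
    rintro _ ⟨x, hx, rfl⟩
    exact not_le.1 (mem_filter.1 (mem_coe.1 hx)).2
  have h5 : l z < l z := h4 h3
  exact lt_irrefl _ h5

end Pool.Agent.T9h85.Lin
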